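import Pool.Agent.Helper51.CRV.Count

/-!
# MP_fd1666_co: the maximum number of edges of n rectangles carrying 2n eyes

For `n ≥ 4` the maximum is exactly `⌊3n²/8⌋ + n - 4`, and for `n ≤ 3` it is `n(n-1)/2`.
-/

namespace Pool.Agent.Results.MP_fd1666_co.MaxEdges

open Pool.Agent.Helper51.CRV

/-- The maximum number of edges of the graph of a representation by `n` pairwise disjoint
rectangles carrying `2n` eyes in total is `n(n-1)/2` for `n < 4` and `⌊3n²/8⌋ + n - 4` for
`n ≥ 4`. -/
theorem result (n : ℕ) :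
    IsGreatest {e : ℕ | ∃ R : Representation n, R.numEyes = 2 * n ∧ R.numEdges = e}
      (if n < 4 then n.choose 2 else 3 * n ^ 2 / 8 + n - 4) := by
  constructor
  · exact ⟨pinR n, pinR_numEyes n, le_antisymm (numEdges_le_max _) (maxEdges_le_pinR n)⟩
  · rintro e ⟨R, -, rfl⟩
    exact numEdges_le_max R

end Pool.Agent.Results.MP_fd1666_co.MaxEdges
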